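import Pool.Agent.Helper35.HL.Stm

/-!
# Pieces SUM and PTH for MP_9e1b23_co
-/

set_option autoImplicit false

namespace Pool.Agent.Helper35.HL

namespace SP

/-- the label of a vertex of the disjoint union -/
def lab {a : ℕ} {X1 X2 : Type} : (Fin a × X1) ⊕ X2 → Option (Fin a)
  | Sum.inl p => some p.1
  | Sum.inr _ => none

theorem lab_eq {a : ℕ} {X1 X2 : Type} {R1 : X1 → X1 → Prop} {R2 : X2 → X2 → Prop}
    {x y : (Fin a × X1) ⊕ X2} (h : RH a R1 R2 x y) : lab x = lab y := by
  rcases x with p | x <;> rcases y with q | y
  · exact congrArg some h.1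
  · exact h.elim
  · exact h.elim
  · rfl

theorem lab_const {ι : Type} {G : SimpleGraph ι} {a : ℕ} {X1 X2 : Type} {R1 : X1 → X1 → Prop}
    {R2 : X2 → X2 → Prop} (f : ι → (Fin a × X1) ⊕ X2)
    (hf : ∀ u v, G.Adj u v → RH a R1 R2 (f u) (f v)) {u v : ι} (w : G.Walk u v) :
    lab (f u) = lab (f v) := by
  induction w with
  | nil => rfl
  | cons h _ ih => exact (lab_eq (hf _ _ h)).trans ih

end SP

open SP in
theorem t_SUM : S_SUM := by
  intro n a X1 X2 _ _ R1 R2 G hG
  classical
  obtain ⟨v0⟩ := hG.nonempty
  let A := {f : Fin n → X1 // ∀ u v, G.Adj u v → R1 (f u) (f v)}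
  let B := {f : Fin n → X2 // ∀ u v, G.Adj u v → R2 (f u) (f v)}
  let C := {f : Fin n → (Fin a × X1) ⊕ X2 // ∀ u v, G.Adj u v → RH a R1 R2 (f u) (f v)}
  let Φ : (Fin a × A) ⊕ B → C := fun z => match z with
    | Sum.inl p => ⟨fun v => Sum.inl (p.1, p.2.1 v), fun u v h => ⟨rfl, p.2.2 u v h⟩⟩
    | Sum.inr g => ⟨fun v => Sum.inr (g.1 v), fun u v h => g.2 u v h⟩
  have hinj : Function.Injective Φ := by
    rintro (⟨i, f, hf⟩ | ⟨f, hf⟩) (⟨j, g, hg⟩ | ⟨g, hg⟩) h
    · have h1 := congrArg Subtype.val h
      have h2 : ∀ v, (Sum.inl (i, f v) : (Fin a × X1) ⊕ X2) = Sum.inl (j, g v) :=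
        fun v => congrFun h1 v
      have h3 : i = j := by
        have := h2 v0
        simp only [Sum.inl.injEq, Prod.mk.injEq] at this
        exact this.1
      have h4 : f = g := by
        funext v
        have := h2 v
        simp only [Sum.inl.injEq, Prod.mk.injEq] at this
        exact this.2
      subst h3 h4
      rfl
    · have h1 := congrFun (congrArg Subtype.val h) v0
      exact absurd h1 (by simp [Φ])
    · have h1 := congrFun (congrArg Subtype.val h) v0
      exact absurd h1 (by simp [Φ])
    · have h1 := congrArg Subtype.val h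
      have h2 : ∀ v, (Sum.inr (f v) : (Fin a × X1) ⊕ X2) = Sum.inr (g v) :=
        fun v => congrFun h1 v
      have h4 : f = g := by
        funext v
        have := h2 v
        simpa using this
      subst h4
      rfl
  have hsurj : Function.Surjective Φ := by
    rintro ⟨f, hf⟩
    have hc : ∀ v, lab (f v0) = lab (f v) := by
      intro v
      obtain ⟨w⟩ := hG.preconnected v0 v
      exact lab_const f hf w
    cases hl : lab (f v0) with
    | some i =>
      have h1 : ∀ v, ∃ x : X1, f v = Sum.inl (i, x) := by
        intro v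
        have h2 := (hc v).symm.trans hl
        rcases h3 : f v with p | x
        · rw [h3] at h2
          refine ⟨p.2, ?_⟩
          have h4 : p.1 = i := by simpa [lab] using h2
          rw [← h4]
        · rw [h3] at h2
          exact absurd h2 (by simp [lab])
      choose g hg using h1
      refine ⟨Sum.inl (i, ⟨g, ?_⟩), ?_⟩
      · intro u v huv
        have h2 := hf u v huv
        rw [hg u, hg v] at h2
        exact h2.2
      · apply Subtype.ext
        funext v
        exact (hg v).symm
    | none =>
      have h1 : ∀ v, ∃ x : X2, f v = Sum.inr x := by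
        intro v
        have h2 := (hc v).symm.trans hl
        rcases h3 : f v with p | x
        · rw [h3] at h2
          exact absurd h2 (by simp [lab])
        · exact ⟨x, rfl⟩
      choose g hg using h1
      refine ⟨Sum.inr ⟨g, ?_⟩, ?_⟩
      · intro u v huv
        have h2 := hf u v huv
        rw [hg u, hg v] at h2
        exact h2
      · apply Subtype.ext
        funext v
        exact (hg v).symm
  have h1 := Nat.card_congr (Equiv.ofBijective Φ ⟨hinj, hsurj⟩)
  have h2 : Nat.card ((Fin a × A) ⊕ B) = a * Nat.card A + Nat.card B := by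
    rw [Nat.card_sum, Nat.card_prod, Nat.card_eq_fintype_card (α := Fin a), Fintype.card_fin]
  exact h1.symm.trans h2

namespace SP

/-- homomorphisms of the path to the second target -/
def P (m n : ℕ) (f : Fin n → Option (Fin m)) : Prop :=
  ∀ u v, (SimpleGraph.pathGraph n).Adj u v → R2 m (f u) (f v)

theorem R2_symm {m : ℕ} {x y : Option (Fin m)} (h : R2 m x y) : R2 m y x := Or.symm h

theorem P_iff {m n : ℕ} {f : Fin n → Option (Fin m)} :
    P m n f ↔ ∀ i j : Fin n, i.val + 1 = j.val → R2 m (f i) (f j) := by
  constructor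
  · intro h i j hij
    exact h i j (SimpleGraph.pathGraph_adj.2 (Or.inl hij))
  · intro h u v huv
    rcases SimpleGraph.pathGraph_adj.1 huv with h1 | h1
    · exact h u v h1
    · exact R2_symm (h v u h1)

theorem P_cons {m n : ℕ} (x : Option (Fin m)) (g : Fin (n + 1) → Option (Fin m)) :
    P m (n + 2) (Fin.cons x g) ↔ R2 m x (g 0) ∧ P m (n + 1) g := by
  rw [P_iff, P_iff]
  constructor
  · intro h
    refine ⟨?_, ?_⟩
    · exact h 0 (Fin.succ 0) (by simp)
    · intro i j hij
      have := h i.succ j.succ (by simp [hij])
      simpa using this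
  · rintro ⟨h1, h2⟩ i j hij
    refine Fin.cases ?_ ?_ i (motive := fun i => i.val + 1 = j.val → R2 m
      ((Fin.cons x g : Fin (n + 2) → Option (Fin m)) i) ((Fin.cons x g : Fin (n + 2) → Option (Fin m)) j)) hij
    · intro h3
      have h4 : j = Fin.succ 0 := by
        apply Fin.ext
        rw [← h3]
        simp
      rw [h4]
      simpa using h1
    · intro i h3
      have hj : j ≠ 0 := by
        rintro rfl
        simp at h3
      obtain ⟨k, rfl⟩ := Fin.exists_succ_eq.2 hj
      simp only [Fin.cons_succ]
      apply h2
      simpa using h3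

theorem P_cons_none {m n : ℕ} (g : Fin n → Option (Fin m)) :
    P m (n + 1) (Fin.cons none g) ↔ P m n g := by
  cases n with
  | zero =>
    rw [P_iff, P_iff]
    constructor
    · intro _ i
      exact i.elim0
    · intro _ i j hij
      have := i.isLt
      have := j.isLt
      omega
  | succ n =>
    rw [P_cons]
    constructor
    · exact fun h => h.2
    · exact fun h => ⟨Or.inl rfl, h⟩

end SP

open SP in
theorem t_PTH : S_PTH := by
  intro m n
  induction n using Nat.strong_induction_on with
  | _ n ih =>
  match n with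
  | 0 =>
    show Nat.card {f : Fin 0 → Option (Fin m) // P m 0 f} = 1
    have hu : Unique {f : Fin 0 → Option (Fin m) // P m 0 f} :=
      { default := ⟨fun i => i.elim0, fun u => u.elim0⟩
        uniq := fun f => Subtype.ext (funext fun i => i.elim0) }
    exact Nat.card_unique
  | 1 =>
    show Nat.card {f : Fin 1 → Option (Fin m) // P m 1 f} = 1 + m
    have e1 : {f : Fin 1 → Option (Fin m) // P m 1 f} ≃ (Fin 1 → Option (Fin m)) :=
      Equiv.subtypeUnivEquiv (by
        intro f
        rw [P_iff]
        intro i j hij
        have := i.isLt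
        have := j.isLt
        omega)
    rw [Nat.card_congr e1, Nat.card_eq_fintype_card]
    simp [add_comm]
  | (n + 2) =>
    show Nat.card {f : Fin (n + 2) → Option (Fin m) // P m (n + 2) f} = pp m (n + 1) + m * pp m n
    have h1 : Nat.card {f : Fin (n + 1) → Option (Fin m) // P m (n + 1) f} = pp m (n + 1) :=
      ih (n + 1) (by omega)
    have h0 : Nat.card {f : Fin n → Option (Fin m) // P m n f} = pp m n := ih n (by omega)
    let Φ : {f : Fin (n + 1) → Option (Fin m) // P m (n + 1) f} ⊕
        (Fin m × {f : Fin n → Option (Fin m) // P m n f}) →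
        {f : Fin (n + 2) → Option (Fin m) // P m (n + 2) f} := fun z => match z with
      | Sum.inl g => ⟨Fin.cons none g.1, (P_cons_none _).2 g.2⟩
      | Sum.inr p => ⟨Fin.cons (some p.1) (Fin.cons none p.2.1),
          (P_cons _ _).2 ⟨Or.inr rfl, (P_cons_none _).2 p.2.2⟩⟩
    have hinj : Function.Injective Φ := by
      rintro (⟨g, hg⟩ | ⟨i, g, hg⟩) (⟨k, hk⟩ | ⟨j, k, hk⟩) h
      · have h1 := congrArg Subtype.val h
        have h2 : (Fin.cons none g : Fin (n + 2) → Option (Fin m)) = Fin.cons none k := h1
        have h3 := (Fin.cons_injective2 h2).2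
        subst h3
        rfl
      · have h1 := congrArg Subtype.val h
        have h2 : (Fin.cons none g : Fin (n + 2) → Option (Fin m))
          = Fin.cons (some j) (Fin.cons none k) := h1
        exact absurd (Fin.cons_injective2 h2).1 (by simp)
      · have h1 := congrArg Subtype.val h
        have h2 : (Fin.cons (some i) (Fin.cons none g) : Fin (n + 2) → Option (Fin m))
          = Fin.cons none k := h1
        exact absurd (Fin.cons_injective2 h2).1 (by simp)
      · have h1 := congrArg Subtype.val h
        have h2 : (Fin.cons (some i) (Fin.cons none g) : Fin (n + 2) → Option (Fin m))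
          = Fin.cons (some j) (Fin.cons none k) := h1
        have h3 := Fin.cons_injective2 h2
        have h4 := Fin.cons_injective2 h3.2
        have h5 : i = j := by simpa using h3.1
        have h6 := h4.2
        subst h5 h6
        rfl
    have hsurj : Function.Surjective Φ := by
      rintro ⟨f, hf⟩
      obtain ⟨x, g, rfl⟩ : ∃ x g, f = Fin.cons x g := ⟨f 0, Fin.tail f, (Fin.cons_self_tail f).symm⟩
      cases x with
      | none => exact ⟨Sum.inl ⟨g, (P_cons_none _).1 hf⟩, rfl⟩
      | some j =>
        have h2 := (P_cons _ _).1 hf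
        have h3 : g 0 = none := by
          rcases h2.1 with h4 | h4
          · exact absurd h4 (by simp)
          · exact h4
        obtain ⟨y, k, rfl⟩ : ∃ y k, g = Fin.cons y k := ⟨g 0, Fin.tail g, (Fin.cons_self_tail g).symm⟩
        have h4 : y = none := by simpa using h3
        subst h4
        exact ⟨Sum.inr (j, ⟨k, (P_cons_none _).1 h2.2⟩), rfl⟩
    rw [← Nat.card_congr (Equiv.ofBijective Φ ⟨hinj, hsurj⟩), Nat.card_sum, Nat.card_prod, h1, h0,
      Nat.card_eq_fintype_card (α := Fin m), Fintype.card_fin]

end Pool.Agent.Helper35.HL
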