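import Pool.Agent.Helper35.HL.G
import Pool.Agent.Helper35.HL.S
import Pool.Agent.Helper2.HLI.I

/-!
Assembly for MP_9e1b23_co.
-/

namespace Pool.Agent.Helper35.HL

theorem card_X1 : Nat.card X1 = 77 := by
  rw [Nat.card_eq_fintype_card]
  unfold X1
  rw [Fintype.card_sigma]
  simp only [Fintype.card_fin]
  decide

theorem hc_le {X : Type} [Finite X] (n : ℕ) (G : SimpleGraph (Fin n)) (R : X → X → Prop) :
    hc G R ≤ Nat.card X ^ n := by
  unfold hc
  have h : Nat.card (Fin n → X) = Nat.card X ^ n := by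
    rw [Nat.card_fun, Nat.card_fin]
  rw [← h]
  exact Nat.card_le_card_of_injective (fun f => f.1) (fun f g h => Subtype.ext h)

theorem hc_iso {X : Type} (n : ℕ) (G G' : SimpleGraph (Fin n)) (R : X → X → Prop)
    (σ : Fin n ≃ Fin n) (h : ∀ u v, G.Adj u v ↔ G'.Adj (σ u) (σ v)) : hc G' R = hc G R := by
  unfold hc
  apply Nat.card_congr
  refine ⟨fun f => ⟨fun u => f.1 (σ u), fun u v huv => f.2 _ _ ((h u v).1 huv)⟩,
    fun f => ⟨fun u => f.1 (σ.symm u), fun u v huv => f.2 _ _ ((h _ _).2 (by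
      simpa using huv))⟩, ?_, ?_⟩
  · intro f
    apply Subtype.ext
    funext u
    simp
  · intro f
    apply Subtype.ext
    funext u
    simp

theorem RH_symm {X1 X2 : Type} (a : ℕ) (R1 : X1 → X1 → Prop) (R2 : X2 → X2 → Prop)
    (h1 : ∀ x y, R1 x y → R1 y x) (h2 : ∀ x y, R2 x y → R2 y x) :
    ∀ x y, RH a R1 R2 x y → RH a R1 R2 y x := by
  rintro (x | x) (y | y) h
  · exact ⟨h.1.symm, h1 _ _ h.2⟩
  · exact h
  · exact h
  · exact h2 _ _ h

theorem asm (hnum : S_NUM) : ∃ (V : Type) (_ : Finite V) (R : V → V → Prop),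
    (∀ a b, R a b → R b a) ∧
    ∃ α β : ℕ, α < β ∧
      (∃ T : SimpleGraph (Fin α), T.IsTree ∧ hc T R < hc (SimpleGraph.pathGraph α) R) ∧
      ∀ n : ℕ, β ≤ n → ∀ T : SimpleGraph (Fin n), T.IsTree →
        hc (SimpleGraph.pathGraph n) R ≤ hc T R := by
  obtain ⟨s, hs⟩ : ∃ s : ℕ, s = 154 := ⟨_, rfl⟩
  obtain ⟨a, ha⟩ : ∃ a : ℕ, a = hc T0 (R2 (s ^ 2)) + 1 := ⟨_, rfl⟩
  refine ⟨(Fin a × X1) ⊕ Option (Fin (s ^ 2)), inferInstance, RH a R1 (R2 (s ^ 2)),
    RH_symm a R1 (R2 (s ^ 2)) (fun x y h => SimpleGraph.Adj.symm h) (fun x y h => h.symm),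
    7, a * 77 + 8, by omega, ⟨T0, t_TRE, ?_⟩, ?_⟩
  · rw [t_SUM 7 a X1 _ inferInstance inferInstance R1 (R2 (s ^ 2)) T0 t_TRE.connected,
      t_SUM 7 a X1 _ inferInstance inferInstance R1 (R2 (s ^ 2)) (SimpleGraph.pathGraph 7)
        (SimpleGraph.pathGraph_connected 6)]
    have h1 : hc T0 R1 + 1 ≤ hc (SimpleGraph.pathGraph 7) R1 := hnum
    have h2 := Nat.mul_le_mul_left a h1
    rw [mul_add, mul_one] at h2
    omega
  · intro n hn T hT
    by_cases hB : Br T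
    · obtain ⟨n', rfl⟩ : ∃ n', n = n' + 1 := ⟨n - 1, by omega⟩
      rw [t_SUM (n' + 1) a X1 _ inferInstance inferInstance R1 (R2 (s ^ 2)) T hT.connected,
        t_SUM (n' + 1) a X1 _ inferInstance inferInstance R1 (R2 (s ^ 2))
          (SimpleGraph.pathGraph (n' + 1)) (SimpleGraph.pathGraph_connected n'), t_PTH]
      have hG := t_GAP (n' + 1) s T _ (by omega) (t_RK (n' + 1) T hT ⟨0, by omega⟩).1 hB
      have h1 := hc_le (n' + 1) (SimpleGraph.pathGraph (n' + 1)) R1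
      rw [card_X1] at h1
      have h2 : n' < 2 ^ n' := Nat.lt_two_pow_self
      have h3 : a * 77 ^ (n' + 1) ≤ s ^ (n' + 1 - 1) := by
        have e : s ^ (n' + 1 - 1) = 2 ^ n' * 77 ^ n' := by
          rw [Nat.add_sub_cancel, hs, ← mul_pow]
          norm_num
        rw [e, pow_succ]
        calc a * (77 ^ n' * 77) = (a * 77) * 77 ^ n' := by ring
          _ ≤ 2 ^ n' * 77 ^ n' := Nat.mul_le_mul_right _ (by omega)
      have h4 := Nat.mul_le_mul_left a h1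
      omega
    · obtain ⟨σ, hσ⟩ := t_ISO n T hT hB
      rw [hc_iso n T (SimpleGraph.pathGraph n) _ σ hσ]

end Pool.Agent.Helper35.HL
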