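import Pool.Agent.Helper35.HL.Stm

/-!
Piece GAP: the gap lemma.
-/

namespace Pool.Agent.Helper35.HL

open Finset

section Gap

variable {n : ℕ} (G : SimpleGraph (Fin n)) (m : ℕ)

/-- homomorphisms supported in `S` -/
def HS (S : Finset (Fin n)) (f : Fin n → Option (Fin m)) : Prop :=
  (∀ v, v ∉ S → f v = none) ∧ ∀ u v, G.Adj u v → f u = none ∨ f v = none

open Classical in
/-- the homomorphisms supported in `S` -/
noncomputable def FS (S : Finset (Fin n)) : Finset (Fin n → Option (Fin m)) :=
  univ.filter (fun f : Fin n → Option (Fin m) => HS G m S f)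

theorem mem_FS (S : Finset (Fin n)) (f : Fin n → Option (Fin m)) :
    f ∈ FS G m S ↔ HS G m S f := by
  classical
  unfold FS
  rw [mem_filter]
  exact ⟨fun h => h.2, fun h => ⟨mem_univ _, h⟩⟩

/-- number of homomorphisms supported in `S` -/
noncomputable def NS (S : Finset (Fin n)) : ℕ := (FS G m S).card

open Classical in
/-- `S` without the closed neighbourhood of `v` -/
noncomputable def DS (S : Finset (Fin n)) (v : Fin n) : Finset (Fin n) :=
  (S.erase v).filter (fun u => ¬ G.Adj v u)

theorem NS_univ : NS G m univ = hc G (R2 m) := by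
  classical
  unfold NS hc
  rw [Nat.card_eq_fintype_card, Fintype.card_subtype]
  congr 1
  ext f
  rw [mem_FS, mem_filter]
  unfold HS R2
  simp

theorem NS_empty : NS G m ∅ = 1 := by
  classical
  unfold NS
  rw [Finset.card_eq_one]
  refine ⟨fun _ => none, ?_⟩
  ext f
  rw [mem_FS, mem_singleton]
  simp only [HS, notMem_empty, not_false_eq_true, forall_true_left]
  constructor
  · intro h
    funext v
    exact h.1 v
  · intro h
    subst h
    exact ⟨fun _ => rfl, fun _ _ _ => Or.inl rfl⟩

theorem NS_rec (S : Finset (Fin n)) (v : Fin n) (hv : v ∈ S) :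
    NS G m S = NS G m (S.erase v) + m * NS G m (DS G S v) := by
  classical
  unfold NS
  rw [← Finset.card_filter_add_card_filter_not (s := FS G m S)
    (fun f : Fin n → Option (Fin m) => f v = none)]
  congr 1
  · congr 1
    ext f
    rw [mem_filter, mem_FS, mem_FS]
    simp only [HS]
    constructor
    · rintro ⟨⟨h1, h2⟩, h3⟩
      refine ⟨?_, h2⟩
      intro w hw
      by_cases hwv : w = v
      · rw [hwv]; exact h3
      · exact h1 w (fun h => hw (mem_erase.2 ⟨hwv, h⟩))
    · rintro ⟨h1, h2⟩
      refine ⟨⟨?_, h2⟩, ?_⟩
      · intro w hw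
        exact h1 w (fun h => hw (mem_of_mem_erase h))
      · exact h1 v (notMem_erase v S)
  · have h0 : m * (FS G m (DS G S v)).card
        = ((univ : Finset (Fin m)) ×ˢ (FS G m (DS G S v))).card := by
      rw [card_product, card_univ, Fintype.card_fin]
    rw [h0]
    symm
    refine Finset.card_bij (fun p _ => Function.update p.2 v (some p.1)) ?_ ?_ ?_
    · rintro ⟨j, f⟩ hf
      rw [mem_product, mem_FS] at hf
      rw [mem_filter, mem_FS]
      simp only [HS] at hf ⊢
      obtain ⟨-, h1, h2⟩ := hf
      refine ⟨⟨?_, ?_⟩, ?_⟩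
      · intro w hw
        have hwv : w ≠ v := fun h => hw (h ▸ hv)
        rw [Function.update_of_ne hwv]
        apply h1
        intro h
        unfold DS at h
        exact hw (mem_of_mem_erase (mem_filter.1 h).1)
      · intro a b hab
        by_cases hav : a = v
        · have hbv : b ≠ v := fun h => G.loopless.irrefl v (by rw [hav, h] at hab; exact hab)
          right
          rw [Function.update_of_ne hbv]
          apply h1
          intro h
          unfold DS at h
          exact (mem_filter.1 h).2 (hav ▸ hab)
        · by_cases hbv : b = v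
          · left
            rw [Function.update_of_ne hav]
            apply h1
            intro h
            unfold DS at h
            exact (mem_filter.1 h).2 (hbv ▸ hab.symm)
          · rw [Function.update_of_ne hav, Function.update_of_ne hbv]
            exact h2 a b hab
      · rw [Function.update_self]
        simp
    · rintro ⟨j, f⟩ hf ⟨j', f'⟩ hf' he
      rw [mem_product, mem_FS] at hf hf'
      replace hf := hf.2
      replace hf' := hf'.2
      simp only [HS] at hf hf' he
      have e1 : j = j' := by
        have := congrFun he v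
        rw [Function.update_self, Function.update_self] at this
        exact Option.some.inj this
      have hvD : v ∉ DS G S v := by
        intro h
        unfold DS at h
        exact notMem_erase v S (mem_filter.1 h).1
      have e2 : f = f' := by
        funext w
        by_cases hwv : w = v
        · rw [hwv, hf.1 v hvD, hf'.1 v hvD]
        · have := congrFun he w
          rw [Function.update_of_ne hwv, Function.update_of_ne hwv] at this
          exact this
      rw [e1, e2]
    · intro f hf
      rw [mem_filter, mem_FS] at hf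
      simp only [HS] at hf
      obtain ⟨⟨h1, h2⟩, h3⟩ := hf
      obtain ⟨j, hj⟩ := Option.ne_none_iff_exists'.1 h3
      refine ⟨(j, Function.update f v none), ?_, ?_⟩
      · rw [mem_product, mem_FS]
        simp only [HS]
        refine ⟨mem_univ _, ?_, ?_⟩
        · intro w hw
          by_cases hwv : w = v
          · rw [hwv, Function.update_self]
          · rw [Function.update_of_ne hwv]
            by_cases hwS : w ∈ S
            · by_cases had : G.Adj v w
              · rcases h2 v w had with h | h
                · exact absurd h h3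
                · exact h
              · exact absurd (by unfold DS; exact mem_filter.2 ⟨mem_erase.2 ⟨hwv, hwS⟩, had⟩) hw
            · exact h1 w hwS
        · intro a b hab
          by_cases hav : a = v
          · left
            rw [hav, Function.update_self]
          · by_cases hbv : b = v
            · right
              rw [hbv, Function.update_self]
            · rw [Function.update_of_ne hav, Function.update_of_ne hbv]
              exact h2 a b hab
      · funext w
        by_cases hwv : w = v
        · simp only [hwv, Function.update_self, hj]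
        · simp only [Function.update_of_ne hwv]

end Gap

section Arith

theorem pp_succ (m n : ℕ) : pp m (n + 1) = pp m n + m * pp m (n - 1) := by
  cases n with
  | zero => simp [pp]
  | succ k => simp [pp]

theorem pp_mono1 (m n : ℕ) : pp m n ≤ pp m (n + 1) := by
  rw [pp_succ]; exact Nat.le_add_right _ _

theorem pp_mono (m : ℕ) {a b : ℕ} (h : a ≤ b) : pp m a ≤ pp m b :=
  monotone_nat_of_le_succ (pp_mono1 m) h

theorem pp_low (s : ℕ) (hs : 1 ≤ s) : ∀ n, s ^ n ≤ pp (s ^ 2) n ∧ s ^ (n + 1) ≤ pp (s ^ 2) (n + 1)
  | 0 => by
    refine ⟨by simp [pp], ?_⟩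
    simp only [pp, zero_add, pow_one]
    nlinarith
  | (n + 1) => by
    have ih := pp_low s hs n
    refine ⟨ih.2, ?_⟩
    rw [pp]
    have h := Nat.mul_le_mul_left (s ^ 2) ih.1
    have e : s ^ (n + 1 + 1) = s ^ 2 * s ^ n := by ring
    rw [e]
    exact h.trans (Nat.le_add_left _ _)

end Arith

section Gap2

variable {n : ℕ} (G : SimpleGraph (Fin n)) (r : Fin n → ℕ)

/-- `v` has at most one neighbour in `S` -/
def Lf (S : Finset (Fin n)) (v : Fin n) : Prop :=
  ∀ u ∈ S, ∀ u' ∈ S, G.Adj v u → G.Adj v u' → u = u'

/-- `v` has no neighbour in `S` -/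
def Is (S : Finset (Fin n)) (v : Fin n) : Prop := ∀ u ∈ S, ¬ G.Adj v u

theorem DS_of_Is (S : Finset (Fin n)) (v : Fin n) (h : Is G S v) : DS G S v = S.erase v := by
  classical
  unfold DS
  exact filter_true_of_mem (fun u hu => h u (mem_of_mem_erase hu))

theorem DS_of_Lf (S : Finset (Fin n)) (v u : Fin n) (h : Lf G S v) (hu : u ∈ S)
    (ha : G.Adj v u) : DS G S v = (S.erase v).erase u := by
  classical
  unfold DS
  ext x
  rw [mem_filter, mem_erase (a := x) (b := u)]
  constructor
  · rintro ⟨h1, h2⟩
    exact ⟨fun e => h2 (e ▸ ha), h1⟩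
  · rintro ⟨h1, h2⟩
    exact ⟨h2, fun h3 => h1 (h x (mem_of_mem_erase h2) u hu h3 ha)⟩

theorem card_DS (S : Finset (Fin n)) (v : Fin n) (hv : v ∈ S) (h : Lf G S v) :
    S.card - 2 ≤ (DS G S v).card := by
  classical
  by_cases hI : Is G S v
  · rw [DS_of_Is G S v hI, card_erase_of_mem hv]
    omega
  · unfold Is at hI
    push Not at hI
    obtain ⟨u, hu, ha⟩ := hI
    rw [DS_of_Lf G S v u h hu ha, card_erase_of_mem (mem_erase.2 ⟨ha.ne', hu⟩),
      card_erase_of_mem hv]
    omega

theorem exists_max (S : Finset (Fin n)) (hS : S.Nonempty) (hr : Rk G r) :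
    ∃ v ∈ S, Lf G S v ∧ ∀ u ∈ S, r u ≤ r v := by
  obtain ⟨v, hv, hm⟩ := Finset.exists_max_image S r hS
  refine ⟨v, hv, ?_, hm⟩
  intro u hu u' hu' h1 h2
  apply hr.uniq v u u' h1 h2
  · have := hr.adj v u h1
    have := hm u hu
    omega
  · have := hr.adj v u' h2
    have := hm u' hu'
    omega

theorem NS_low (m : ℕ) (hr : Rk G r) : ∀ (k : ℕ) (S : Finset (Fin n)), S.card = k →
    pp m k ≤ NS G m S := by
  classical
  intro k
  induction k using Nat.strong_induction_on with
  | _ k ih =>
    intro S hS
    rcases Nat.eq_zero_or_pos k with h0 | h0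
    · subst h0
      rw [card_eq_zero.1 hS, NS_empty]
      simp [pp]
    · have hne : S.Nonempty := by rw [← card_pos]; omega
      obtain ⟨v, hv, hL, -⟩ := exists_max G r S hne hr
      rw [NS_rec G m S v hv]
      have c1 : (S.erase v).card = k - 1 := by rw [card_erase_of_mem hv, hS]
      have h1 := ih (k - 1) (by omega) (S.erase v) c1
      have c2 := card_DS G S v hv hL
      have c3 : (DS G S v).card ≤ k - 1 := by
        rw [← c1]; unfold DS; exact card_filter_le _ _
      have h2 := ih (DS G S v).card (by omega) (DS G S v) rfl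
      have h3 : pp m (k - 1 - 1) ≤ pp m (DS G S v).card := pp_mono m (by omega)
      have e : pp m k = pp m (k - 1) + m * pp m (k - 1 - 1) := by
        rw [← pp_succ]; congr 1; omega
      rw [e]
      exact Nat.add_le_add h1 (Nat.mul_le_mul_left m (h3.trans h2))

theorem NS_step (m : ℕ) (S : Finset (Fin n)) (v : Fin n) (hv : v ∈ S)
    (e1 e2 : ℕ) (h1 : pp m (S.card - 1) + e1 ≤ NS G m (S.erase v))
    (h2 : pp m (S.card - 2) + e2 ≤ NS G m (DS G S v)) :
    pp m S.card + (e1 + m * e2) ≤ NS G m S := by
  rw [NS_rec G m S v hv]
  have hc : 0 < S.card := card_pos.2 ⟨v, hv⟩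
  have e : pp m S.card = pp m (S.card - 1) + m * pp m (S.card - 2) := by
    have : S.card - 2 = S.card - 1 - 1 := by omega
    rw [this, ← pp_succ]; congr 1; omega
  rw [e]
  have := Nat.mul_le_mul_left m h2
  rw [mul_add] at this
  omega

/-- an isolated vertex gives a gap -/
theorem NS_iso (s : ℕ) (hs : 1 ≤ s) (hr : Rk G r) (S : Finset (Fin n)) (y : Fin n) (hy : y ∈ S)
    (hI : Is G S y) (h2 : 2 ≤ S.card) :
    pp (s ^ 2) S.card + s ^ (S.card + 1) ≤ NS G (s ^ 2) S := by
  rw [NS_rec G (s ^ 2) S y hy, DS_of_Is G S y hI]
  have hc : (S.erase y).card = S.card - 1 := card_erase_of_mem hy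
  have hl := NS_low G r (s ^ 2) hr (S.card - 1) (S.erase y) hc
  obtain ⟨k, hk⟩ : ∃ k, S.card = k + 2 := ⟨S.card - 2, by omega⟩
  rw [hk] at hl ⊢
  have e1 : pp (s ^ 2) (k + 2) = pp (s ^ 2) (k + 1) + s ^ 2 * pp (s ^ 2) k := by rw [pp]
  have e2 : pp (s ^ 2) (k + 1) = pp (s ^ 2) k + s ^ 2 * pp (s ^ 2) (k - 1) := pp_succ _ _
  have e3 : s ^ (k + 2 + 1) ≤ s ^ 2 * (s ^ 2 * pp (s ^ 2) (k - 1)) := by
    have h3 := (pp_low s hs (k - 1)).1
    calc s ^ (k + 2 + 1) ≤ s ^ (k - 1 + 4) := Nat.pow_le_pow_right hs (by omega)
      _ = s ^ 2 * (s ^ 2 * s ^ (k - 1)) := by ring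
      _ ≤ _ := Nat.mul_le_mul_left _ (Nat.mul_le_mul_left _ h3)
  have h4 : pp (s ^ 2) (k + 1) ≤ NS G (s ^ 2) (S.erase y) := hl
  have h5 := Nat.mul_le_mul_left (s ^ 2) h4
  have h6 : s ^ 2 * pp (s ^ 2) (k + 1)
      = s ^ 2 * pp (s ^ 2) k + s ^ 2 * (s ^ 2 * pp (s ^ 2) (k - 1)) := by
    rw [e2, mul_add]
  omega

/-- `S` contains a vertex with three neighbours in `S` -/
def BrS (S : Finset (Fin n)) : Prop :=
  ∃ w ∈ S, ∃ a ∈ S, ∃ b ∈ S, ∃ c ∈ S, a ≠ b ∧ a ≠ c ∧ b ≠ c ∧ G.Adj w a ∧ G.Adj w b ∧ G.Adj w c

theorem NS_gap (s : ℕ) (hs : 1 ≤ s) (hr : Rk G r) : ∀ (k : ℕ) (S : Finset (Fin n)), S.card = k →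
    BrS G S → pp (s ^ 2) k + s ^ (k - 1) ≤ NS G (s ^ 2) S := by
  classical
  intro k
  induction k using Nat.strong_induction_on with
  | _ k ih =>
    intro S hS hB
    have hk4 : 4 ≤ k := by
      obtain ⟨w, hw, a, ha, b, hb, c, hc, hab, hac, hbc, hwa, hwb, hwc⟩ := hB
      have : ({w, a, b, c} : Finset (Fin n)) ⊆ S := by
        intro x hx
        simp only [mem_insert, mem_singleton] at hx
        rcases hx with h | h | h | h <;> rw [h] <;> assumption
      have h2 := card_le_card this
      rw [card_insert_of_notMem, card_insert_of_notMem, card_insert_of_notMem,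
        card_singleton] at h2
      · omega
      · simpa using hbc
      · simp only [mem_insert, mem_singleton, not_or]
        exact ⟨hab, hac⟩
      · simp only [mem_insert, mem_singleton, not_or]
        exact ⟨hwa.ne, hwb.ne, hwc.ne⟩
    have hne : S.Nonempty := by rw [← card_pos]; omega
    obtain ⟨v, hv, hL, hm⟩ := exists_max G r S hne hr
    have c1 : (S.erase v).card = k - 1 := by rw [card_erase_of_mem hv, hS]
    by_cases hI : Is G S v
    · -- isolated vertex
      have h1 := NS_iso G r s hs hr S v hv hI (by omega)
      rw [hS] at h1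
      refine le_trans (Nat.add_le_add_left (Nat.pow_le_pow_right hs (by omega)) _) h1
    · unfold Is at hI
      push Not at hI
      obtain ⟨u, hu, hvu⟩ := hI
      have hDv := DS_of_Lf G S v u hL hu hvu
      have huv : u ≠ v := hvu.ne'
      have c2 : (DS G S v).card = k - 2 := by
        rw [hDv, card_erase_of_mem (mem_erase.2 ⟨huv, hu⟩), c1]; omega
      have hru : r u + 1 = r v := by
        have := hr.adj v u hvu
        have := hm u hu
        omega
      have hlow1 : pp (s ^ 2) (S.card - 1) + 0 ≤ NS G (s ^ 2) (S.erase v) := by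
        rw [hS, add_zero]; exact NS_low G r (s ^ 2) hr (k - 1) _ c1
      have hlow2 : pp (s ^ 2) (S.card - 2) + 0 ≤ NS G (s ^ 2) (DS G S v) := by
        rw [hS, add_zero]; exact NS_low G r (s ^ 2) hr (k - 2) _ c2
      -- only neighbour of v
      have hvn : ∀ x ∈ S, G.Adj v x → x = u := fun x hx h => hL x hx u hu h hvu
      have memD : ∀ x, x ∈ DS G S v ↔ x ∈ S ∧ x ≠ v ∧ x ≠ u := by
        intro x
        rw [hDv, mem_erase, mem_erase]
        tauto
      by_cases hA : BrS G (DS G S v)
      · -- the rest still branches
        have h2 := ih (k - 2) (by omega) (DS G S v) c2 hA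
        have h3 := NS_step G (s ^ 2) S v hv 0 (s ^ (k - 2 - 1)) hlow1 (by rw [hS]; exact h2)
        rw [hS] at h3
        have e : 0 + s ^ 2 * s ^ (k - 2 - 1) = s ^ (k - 1) := by
          rw [zero_add, ← pow_add]; congr 1; omega
        rw [e] at h3
        exact h3
      · by_cases hB1 : ∃ y ∈ S, ∃ z ∈ S, y ≠ v ∧ z ≠ v ∧ z ≠ y ∧ G.Adj u y ∧ r y = r u + 1 ∧
          G.Adj u z
        · obtain ⟨y, hy, z, hz, hyv, hzv, hzy, huy, hry, huz⟩ := hB1
          have hyD : y ∈ DS G S v := (memD y).2 ⟨hy, hyv, huy.ne'⟩
          have hzD : z ∈ DS G S v := (memD z).2 ⟨hz, hzv, huz.ne'⟩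
          have hIy : Is G (DS G S v) y := by
            intro x hx hyx
            obtain ⟨hxS, hxv, hxu⟩ := (memD x).1 hx
            have h1 := hr.adj y x hyx
            have h2 := hm x hxS
            exact hxu (hr.uniq y x u hyx huy.symm (by omega) (by omega))
          have hc2 : 2 ≤ (DS G S v).card := by
            have : ({y, z} : Finset (Fin n)) ⊆ DS G S v := by
              intro x hx
              simp only [mem_insert, mem_singleton] at hx
              rcases hx with h | h <;> rw [h] <;> assumption
            have h3 := card_le_card this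
            rw [card_pair hzy.symm] at h3
            exact h3
          have h4 := NS_iso G r s hs hr (DS G S v) y hyD hIy hc2
          rw [c2] at h4
          have h5 := NS_step G (s ^ 2) S v hv 0 (s ^ (k - 2 + 1)) hlow1 (by rw [hS]; exact h4)
          rw [hS] at h5
          refine le_trans (Nat.add_le_add_left ?_ _) h5
          calc s ^ (k - 1) ≤ s ^ (2 + (k - 2 + 1)) := Nat.pow_le_pow_right hs (by omega)
            _ = 0 + s ^ 2 * s ^ (k - 2 + 1) := by ring
        · push Not at hB1
          -- locate the branching vertex
          have key : ∃ w ∈ S, ∃ y ∈ S, ∃ z ∈ S, y ≠ z ∧ y ≠ u ∧ z ≠ u ∧ G.Adj w u ∧ G.Adj w y ∧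
              G.Adj w z ∧ r y = r w + 1 ∧ r u = r w + 1 := by
            obtain ⟨w, hw, a, ha, b, hb, c, hc, hab, hac, hbc, hwa, hwb, hwc⟩ := hB
            have hwv : w ≠ v := by
              intro h
              rw [h] at hwa hwb
              exact hab ((hvn a ha hwa).trans (hvn b hb hwb).symm)
            have two : ∀ p ∈ S, ∀ q ∈ S, p ≠ v → q ≠ v → p ≠ q → G.Adj u p → G.Adj u q →
                False := by
              intro p hp q hq hpv hqv hpq hup huq
              rcases hr.adj u p hup with h1 | h1
              · rcases hr.adj u q huq with h2 | h2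
                · exact hpq (hr.uniq u p q hup huq h1.symm h2.symm)
                · exact hB1 q hq p hp hqv hpv hpq huq h2 hup
              · exact hB1 p hp q hq hpv hqv hpq.symm hup h1 huq
            have hwu : w ≠ u := by
              intro h
              rw [h] at hwa hwb hwc
              by_cases h1 : a = v
              · have h2 : b ≠ v := fun e => hab (h1.trans e.symm)
                have h3 : c ≠ v := fun e => hac (h1.trans e.symm)
                exact two b hb c hc h2 h3 hbc hwb hwc
              · by_cases h2 : b = v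
                · have h3 : c ≠ v := fun e => hbc (h2.trans e.symm)
                  exact two a ha c hc h1 h3 hac hwa hwc
                · exact two a ha b hb h1 h2 hab hwa hwb
            have hnv : ∀ x, G.Adj w x → x ≠ v := by
              intro x hx e
              rw [e] at hx
              exact hwu (hvn w hw hx.symm)
            have fin : ∀ p ∈ S, ∀ q ∈ S, p ≠ q → p ≠ u → q ≠ u → G.Adj w u → G.Adj w p →
                G.Adj w q → ∃ w ∈ S, ∃ y ∈ S, ∃ z ∈ S, y ≠ z ∧ y ≠ u ∧ z ≠ u ∧ G.Adj w u ∧
                G.Adj w y ∧ G.Adj w z ∧ r y = r w + 1 ∧ r u = r w + 1 := by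
              intro p hp q hq hpq hpu hqu hw1 hwp hwq
              have hmw := hm w hw
              have hmp := hm p hp
              have hmq := hm q hq
              have hpq2 : ¬ (r p + 1 = r w ∧ r q + 1 = r w) :=
                fun h => hpq (hr.uniq w p q hwp hwq h.1 h.2)
              rcases hr.adj w u hw1 with h1 | h1
              · exfalso
                apply hpq2
                have h2 := hr.adj w p hwp
                have h3 := hr.adj w q hwq
                omega
              · rcases hr.adj w p hwp with h2 | h2
                · rcases hr.adj w q hwq with h3 | h3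
                  · exact absurd ⟨h2.symm, h3.symm⟩ hpq2
                  · exact ⟨w, hw, q, hq, p, hp, hpq.symm, hqu, hpu, hw1, hwq, hwp, h3, h1⟩
                · exact ⟨w, hw, p, hp, q, hq, hpq, hpu, hqu, hw1, hwp, hwq, h2, h1⟩
            by_cases hau : a = u
            · rw [hau] at hwa hab hac
              exact fin b hb c hc hbc hab.symm hac.symm hwa hwb hwc
            · by_cases hbu : b = u
              · rw [hbu] at hwb hab hbc
                exact fin a ha c hc hac hab hbc.symm hwb hwa hwc
              · by_cases hcu : c = u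
                · rw [hcu] at hwc hac hbc
                  exact fin a ha b hb hab hac hbc hwc hwa hwb
                · exfalso
                  apply hA
                  exact ⟨w, (memD w).2 ⟨hw, hwv, hwu⟩, a, (memD a).2 ⟨ha, hnv a hwa, hau⟩,
                    b, (memD b).2 ⟨hb, hnv b hwb, hbu⟩, c, (memD c).2 ⟨hc, hnv c hwc, hcu⟩,
                    hab, hac, hbc, hwa, hwb, hwc⟩
          obtain ⟨w, hw, y, hy, z, hz, hyz, hyu, hzu, hwu, hwy, hwz, hry, hrw⟩ := key
          have hwv : w ≠ v := fun e => by rw [e] at hrw; omega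
          have hwu' : w ≠ u := hwu.ne
          have hyv : y ≠ v := fun e => by rw [e] at hry; omega
          have hzv : z ≠ v := fun e => by
            rw [e] at hwz; exact hwu' (hvn w hw hwz.symm)
          have huS1 : u ∈ S.erase v := mem_erase.2 ⟨huv, hu⟩
          have hwS1 : w ∈ S.erase v := mem_erase.2 ⟨hwv, hw⟩
          have hun : ∀ x ∈ S.erase v, G.Adj u x → x = w := by
            intro x hx hux
            obtain ⟨hxv, hxS⟩ := mem_erase.1 hx
            by_contra hxw
            rcases hr.adj u x hux with h1 | h1
            · exact hxw (hr.uniq u x w hux hwu.symm h1.symm hrw.symm)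
            · exact hB1 x hxS w hw hxv hwv (fun e => hxw e.symm) hux h1 hwu.symm
          have hLu : Lf G (S.erase v) u := fun x hx x' hx' h1 h2 =>
            (hun x hx h1).trans (hun x' hx' h2).symm
          have hDu := DS_of_Lf G (S.erase v) u w hLu hwS1 hwu.symm
          set S3 := DS G (S.erase v) u with hS3
          have mem3 : ∀ x, x ∈ S3 ↔ x ∈ S ∧ x ≠ v ∧ x ≠ u ∧ x ≠ w := by
            intro x
            rw [hDu, mem_erase, mem_erase, mem_erase]
            tauto
          have c3 : S3.card = k - 3 := by
            rw [hDu, card_erase_of_mem (mem_erase.2 ⟨hwu', hwS1⟩), card_erase_of_mem huS1, c1]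
            omega
          have hyS3 : y ∈ S3 := (mem3 y).2 ⟨hy, hyv, hyu, hwy.ne'⟩
          have hzS3 : z ∈ S3 := (mem3 z).2 ⟨hz, hzv, hzu, hwz.ne'⟩
          have pair2 : ∀ (P : Finset (Fin n)), y ∈ P → z ∈ P → 2 ≤ P.card := by
            intro P h1 h2
            have : ({y, z} : Finset (Fin n)) ⊆ P := by
              intro x hx
              simp only [mem_insert, mem_singleton] at hx
              rcases hx with h | h <;> rw [h] <;> assumption
            have h3 := card_le_card this
            rw [card_pair hyz] at h3
            exact h3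
          have hc3 : 2 ≤ S3.card := pair2 S3 hyS3 hzS3
          have e3 : pp (s ^ 2) (k - 3) + s ^ (k - 3) ≤ NS G (s ^ 2) S3 := by
            by_cases hIy : Is G S3 y
            · have h1 := NS_iso G r s hs hr S3 y hyS3 hIy hc3
              rw [c3] at h1
              exact le_trans (Nat.add_le_add_left (Nat.pow_le_pow_right hs (by omega)) _) h1
            · unfold Is at hIy
              push Not at hIy
              obtain ⟨y', hy', hyy'⟩ := hIy
              obtain ⟨hy'S, hy'v, hy'u, hy'w⟩ := (mem3 y').1 hy'
              have up : ∀ x, x ≠ w → G.Adj y x → r x = r y + 1 := by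
                intro x hxw hyx
                rcases hr.adj y x hyx with h1 | h1
                · exact absurd (hr.uniq y x w hyx hwy.symm h1.symm hry.symm) hxw
                · exact h1
              have hry' := up y' hy'w hyy'
              have hLy' : ∀ x ∈ S3, G.Adj y' x → x = y := by
                intro x hx hxa
                obtain ⟨hxS, hxv, hxu, hxw⟩ := (mem3 x).1 hx
                have h1 := hr.adj y' x hxa
                have h2 := hm x hxS
                exact hr.uniq y' x y hxa hyy'.symm (by omega) (by omega)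
              have hL3 : Lf G S3 y' := fun x hx x' hx' h1 h2 =>
                (hLy' x hx h1).trans (hLy' x' hx' h2).symm
              have hIs : Is G (S3.erase y') y := by
                intro x hx hyx
                obtain ⟨hxy', hx3⟩ := mem_erase.1 hx
                obtain ⟨hxS, hxv, hxu, hxw⟩ := (mem3 x).1 hx3
                apply hA
                exact ⟨y, (memD y).2 ⟨hy, hyv, hyu⟩, w, (memD w).2 ⟨hw, hwv, hwu'⟩,
                  y', (memD y').2 ⟨hy'S, hy'v, hy'u⟩, x, (memD x).2 ⟨hxS, hxv, hxu⟩,
                  hy'w.symm, hxw.symm, hxy'.symm, hwy.symm, hyy', hyx⟩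
              have hzy' : z ≠ y' := by
                intro e
                have := hr.adj w z hwz
                rw [e] at this
                omega
              have hyE : y ∈ S3.erase y' := mem_erase.2 ⟨hyy'.ne, hyS3⟩
              have hzE : z ∈ S3.erase y' := mem_erase.2 ⟨hzy', hzS3⟩
              have c4 : (S3.erase y').card = k - 4 := by
                rw [card_erase_of_mem hy', c3]; omega
              have hc4 := pair2 _ hyE hzE
              have h1 := NS_iso G r s hs hr (S3.erase y') y hyE hIs hc4
              rw [c4] at h1 hc4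
              have hD3 := DS_of_Lf G S3 y' y hL3 hyS3 hyy'.symm
              have c5 : (DS G S3 y').card = k - 5 := by
                rw [hD3, card_erase_of_mem hyE, c4]; omega
              have h2 := NS_low G r (s ^ 2) hr (k - 5) _ c5
              have h3 := NS_step G (s ^ 2) S3 y' hy' (s ^ (k - 4 + 1)) 0
                (by rw [c3]; exact h1) (by rw [c3, add_zero]; exact h2)
              rw [c3] at h3
              have e : s ^ (k - 4 + 1) + s ^ 2 * 0 = s ^ (k - 3) := by
                rw [mul_zero, add_zero]; congr 1; omega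
              rw [e] at h3
              exact h3
          have c1' : (S.erase v).card - 1 = k - 2 := by omega
          have c1'' : (S.erase v).card - 2 = k - 3 := by omega
          have h4 := NS_step G (s ^ 2) (S.erase v) u huS1 0 (s ^ (k - 3))
            (by
              rw [c1', add_zero]
              exact NS_low G r (s ^ 2) hr (k - 2) _ (by rw [card_erase_of_mem huS1, c1]; omega))
            (by rw [c1'']; exact e3)
          rw [c1] at h4
          have hk5 : 5 ≤ k := by omega
          have e : 0 + s ^ 2 * s ^ (k - 3) = s ^ (k - 1) := by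
            rw [zero_add, ← pow_add]; congr 1; omega
          rw [e] at h4
          have h5 := NS_step G (s ^ 2) S v hv (s ^ (k - 1)) 0 (by rw [hS]; exact h4) hlow2
          rw [hS, mul_zero, add_zero] at h5
          exact h5

end Gap2

theorem t_GAP : S_GAP := by
  intro n s T r hs hr hB
  rw [← NS_univ]
  have h := NS_gap T r s hs hr n univ (by rw [card_univ, Fintype.card_fin]) (by
    obtain ⟨w, a, b, c, hab, hac, hbc, hwa, hwb, hwc⟩ := hB
    exact ⟨w, mem_univ _, a, mem_univ _, b, mem_univ _, c, mem_univ _, hab, hac, hbc,
      hwa, hwb, hwc⟩)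
  exact h

end Pool.Agent.Helper35.HL
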