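import Mathlib

/-!
Statements of the pieces for MP_9e1b23_co (S10425).

The target graph is a disjoint union of `a` copies of a graph `X1` on 77 vertices (for which the
spider with legs 1,2,3 has fewer homomorphisms than the path on 7 vertices) and of the graph
`Option (Fin m)` with adjacency `R2` (independent sets with weight `m`).
-/

namespace Pool.Agent.Helper35.HL

/-- number of homomorphisms of `G` to the target with adjacency `R` -/
noncomputable def hc {ι X : Type} (G : SimpleGraph ι) (R : X → X → Prop) : ℕ :=
  Nat.card {f : ι → X // ∀ u v, G.Adj u v → R (f u) (f v)}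

/-- one looped vertex `none` joined to `m` unlooped pairwise nonadjacent vertices -/
def R2 (m : ℕ) (x y : Option (Fin m)) : Prop := x = none ∨ y = none

/-- disjoint union of `a` copies of the first target and one copy of the second -/
def RH {X1 X2 : Type} (a : ℕ) (R1 : X1 → X1 → Prop) (R2 : X2 → X2 → Prop) :
    (Fin a × X1) ⊕ X2 → (Fin a × X1) ⊕ X2 → Prop
  | Sum.inl p, Sum.inl q => p.1 = q.1 ∧ R1 p.2 q.2
  | Sum.inr x, Sum.inr y => R2 x y
  | _, _ => False

/-- value of the independence polynomial of the path on `n` vertices at `m` -/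
def pp (m : ℕ) : ℕ → ℕ
  | 0 => 1
  | 1 => 1 + m
  | (n + 2) => pp m (n + 1) + m * pp m n

/-- `r` is a rank function: adjacent vertices have ranks differing by one and each vertex has at
most one neighbour of smaller rank -/
structure Rk {V : Type} (G : SimpleGraph V) (r : V → ℕ) : Prop where
  adj : ∀ u v, G.Adj u v → r u = r v + 1 ∨ r v = r u + 1
  uniq : ∀ v u u', G.Adj v u → G.Adj v u' → r u + 1 = r v → r u' + 1 = r v → u = u'

/-- some vertex has at least three neighbours -/
def Br {V : Type} (G : SimpleGraph V) : Prop :=
  ∃ w a b c, a ≠ b ∧ a ≠ c ∧ b ≠ c ∧ G.Adj w a ∧ G.Adj w b ∧ G.Adj w c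

/-- PIECE SUM. A homomorphism from a connected graph to a disjoint union has image in one part
(the label, `Sum.inl i` or `Sum.inr ()`, is constant along edges). -/
def S_SUM : Prop := ∀ (n a : ℕ) (X1 X2 : Type) (_ : Finite X1) (_ : Finite X2)
  (R1 : X1 → X1 → Prop) (R2 : X2 → X2 → Prop) (G : SimpleGraph (Fin n)), G.Connected →
  hc G (RH a R1 R2) = a * hc G R1 + hc G R2

/-- PIECE PTH. `hc (pathGraph n) (R2 m) = pp m n`. Split by the value at the last (or first)
vertex: `none` leaves a homomorphism of `pathGraph (n+1)`; `some j` (m choices) forces `none`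
next to it and leaves a homomorphism of `pathGraph n`. -/
def S_PTH : Prop := ∀ m n : ℕ, hc (SimpleGraph.pathGraph n) (R2 m) = pp m n

/-- PIECE RK. In a tree the distance to a fixed root is a rank function and each vertex other than
the root has a neighbour of rank one less (Mathlib: `IsTree.dist_ne_of_adj`,
`IsTree.dist_eq_dist_add_one_of_adj`, `IsAcyclic.path_unique`). -/
def S_RK : Prop := ∀ (n : ℕ) (T : SimpleGraph (Fin n)), T.IsTree → ∀ o : Fin n,
  Rk T (fun v => T.dist o v) ∧
  ∀ v, v ≠ o → ∃ u, T.Adj v u ∧ T.dist o u + 1 = T.dist o v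

/-- PIECE GAP. If `T` has a rank function and a vertex with three neighbours, then its number of
independent-set homomorphisms exceeds that of the path by `s ^ (n - 1)`. -/
def S_GAP : Prop := ∀ (n s : ℕ) (T : SimpleGraph (Fin n)) (r : Fin n → ℕ), 1 ≤ s → Rk T r → Br T →
  pp (s ^ 2) n + s ^ (n - 1) ≤ hc T (R2 (s ^ 2))

/-- PIECE ISO. A tree with no vertex having three neighbours is isomorphic to the path.
Proof: n = 1 trivial. n ≥ 2: take a root `o` with exactly one neighbour
(`IsTree.exists_vert_degree_one_of_nontrivial`). With the rank function `T.dist o` of PIECE RK every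
vertex `v` has at most one neighbour of rank `T.dist o v + 1` (it has at most two neighbours, one of
which is its neighbour of smaller rank; `o` has one neighbour). So by induction on the rank two
vertices with equal rank are equal; the set of ranks is downward closed, so `v ↦ T.dist o v` is a
bijection onto `{0, ..., n-1}`, and vertices of consecutive ranks are adjacent since the
neighbour of smaller rank is the only vertex of that rank. -/
def S_ISO : Prop := ∀ (n : ℕ) (T : SimpleGraph (Fin n)), T.IsTree → ¬ Br T →
  ∃ σ : Fin n ≃ Fin n, ∀ u v, T.Adj u v ↔ (SimpleGraph.pathGraph n).Adj (σ u) (σ v)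

/-- parent of a vertex in the spider with legs 1, 2, 3 (centre 0, legs 1 | 2 3 | 4 5 6) -/
def par : Fin 7 → Fin 7 := ![0, 0, 0, 2, 0, 4, 5]

/-- the spider with legs 1, 2, 3 -/
def T0 : SimpleGraph (Fin 7) where
  Adj i j := i ≠ j ∧ (par i = j ∨ par j = i)
  symm := ⟨fun i j h => ⟨h.1.symm, h.2.symm⟩⟩
  loopless := ⟨fun i h => h.1 rfl⟩

/-- class sizes -/
def W : Fin 5 → ℕ := ![30, 4, 1, 1, 41]

/-- the small target: blow up of the path on 5 vertices with class sizes `W` -/
abbrev X1 : Type := Σ i : Fin 5, Fin (W i)

/-- adjacency of the small target -/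
def R1 (x y : X1) : Prop := (SimpleGraph.pathGraph 5).Adj x.1 y.1

/-- PIECE NUM. The numbers are `64...`: with `w k x` the number of walks with `k` steps from `x` in
the target, `hc T0 R1 = ∑ x, w 1 x * w 2 x * w 3 x = 71853008` and
`hc (pathGraph 7) R1 = ∑ x, w 3 x ^ 2 = 71853400`. -/
def S_NUM : Prop := hc T0 R1 < hc (SimpleGraph.pathGraph 7) R1

/-- PIECE TRE. The spider is a tree (`isTree_iff_connected_and_card`, or a rank argument). -/
def S_TRE : Prop := T0.IsTree

end Pool.Agent.Helper35.HL
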